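import Pool.Agent.H.MP_e6b4b8_nt.A

set_option autoImplicit false

namespace Pool.Agent.Results.MP_e6b4b8_nt.One

open Pool.Agent.H.MP_e6b4b8_nt

theorem result : {n : ℕ | ArithmeticFunction.moebius (n ^ 2 + 1) = 1}.Infinite := by
  apply Set.infinite_of_forall_exists_gt
  intro M
  obtain ⟨t, ht, h0, h1⟩ := good (M + 1)
  rw [add_zero] at h0
  have hc : Nat.Coprime ((5 * t) ^ 2 + 1) ((5 * t + 1) ^ 2 + 1) := by
    rw [Nat.coprime_iff_gcd_eq_one]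
    set g := Nat.gcd ((5 * t) ^ 2 + 1) ((5 * t + 1) ^ 2 + 1) with hg
    have a1 : (g : ℤ) ∣ (5 * t) ^ 2 + 1 := by exact_mod_cast Nat.gcd_dvd_left _ _
    have a2 : (g : ℤ) ∣ (5 * t + 1) ^ 2 + 1 := by exact_mod_cast Nat.gcd_dvd_right _ _
    have a3 : (g : ℤ) ∣ 5 := by
      exact (dvd_sub (Dvd.dvd.mul_left a1 (10 * t + 3)) (Dvd.dvd.mul_left a2 (10 * t - 1))).trans
        (dvd_of_eq (by ring))
    have a4 : (g : ℤ) ∣ 1 := by
      exact (dvd_sub a1 (Dvd.dvd.mul_right a3 (5 * t ^ 2))).trans (dvd_of_eq (by ring))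
    exact Nat.dvd_one.1 (by exact_mod_cast a4)
  have m0 := ArithmeticFunction.moebius_sq_eq_one_of_squarefree h0
  have m1 := ArithmeticFunction.moebius_sq_eq_one_of_squarefree h1
  rcases sq_eq_one_iff.1 m0 with h | h
  · exact ⟨5 * t, h, by omega⟩
  rcases sq_eq_one_iff.1 m1 with h' | h'
  · exact ⟨5 * t + 1, h', by omega⟩
  refine ⟨(5 * t) ^ 2 + 5 * t + 1, ?_, by omega⟩
  have e : ((5 * t) ^ 2 + 5 * t + 1) ^ 2 + 1 = ((5 * t) ^ 2 + 1) * ((5 * t + 1) ^ 2 + 1) := by ring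
  simp only [Set.mem_setOf_eq]
  rw [e, ArithmeticFunction.isMultiplicative_moebius.map_mul_of_coprime hc, h, h']
  norm_num

end Pool.Agent.Results.MP_e6b4b8_nt.One
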